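import Pool.Agent.Lib.MP_fb3619_al.Iface

/-!
# CENT: subgroups of finite index have trivial centralizer
-/

universe u

namespace Pool.Agent.FourGp.H59

theorem relIndex_top {G : Type u} [Group G] {H K : Subgroup G} {a b c : G} (h : Cfg H K a b c) :
    K.relIndex H ≠ 0 := by
  let f : Fin 4 → H ⧸ K.subgroupOf H := fun i =>
    match i with
    | 0 => QuotientGroup.mk (1 : H)
    | 1 => QuotientGroup.mk (⟨a, h.ha⟩ : H)
    | 2 => QuotientGroup.mk (⟨b, h.hb⟩ : H)
    | 3 => QuotientGroup.mk (⟨c, h.hc⟩ : H)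
  have hf : Function.Surjective f := by
    intro q
    obtain ⟨x, rfl⟩ := QuotientGroup.mk_surjective q
    rcases h.top x⁻¹ (H.inv_mem x.2) with e | e | e | e
    · refine ⟨0, ?_⟩
      show (QuotientGroup.mk (1 : H) : H ⧸ K.subgroupOf H) = QuotientGroup.mk x
      rw [eq_comm, QuotientGroup.eq, Subgroup.mem_subgroupOf]
      simpa using e
    · refine ⟨1, ?_⟩
      show (QuotientGroup.mk (⟨a, h.ha⟩ : H) : H ⧸ K.subgroupOf H) = QuotientGroup.mk x
      rw [eq_comm, QuotientGroup.eq, Subgroup.mem_subgroupOf]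
      simpa using e
    · refine ⟨2, ?_⟩
      show (QuotientGroup.mk (⟨b, h.hb⟩ : H) : H ⧸ K.subgroupOf H) = QuotientGroup.mk x
      rw [eq_comm, QuotientGroup.eq, Subgroup.mem_subgroupOf]
      simpa using e
    · refine ⟨3, ?_⟩
      show (QuotientGroup.mk (⟨c, h.hc⟩ : H) : H ⧸ K.subgroupOf H) = QuotientGroup.mk x
      rw [eq_comm, QuotientGroup.eq, Subgroup.mem_subgroupOf]
      simpa using e
  have : Finite (H ⧸ K.subgroupOf H) := Finite.of_surjective f hf
  exact Subgroup.index_ne_zero_of_finite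

theorem cent : CentS.{u} := by
  intro G _ H K a b c h hJ L hLK hL x hx hxL
  by_contra hx1
  have hLH : L.relIndex H ≠ 0 := by
    rw [← Subgroup.relIndex_mul_relIndex L K H hLK h.le]
    exact mul_ne_zero hL (relIndex_top h)
  have hfi : (L.subgroupOf H).FiniteIndex := ⟨hLH⟩
  -- the core
  let N : Subgroup G := ((L.subgroupOf H).normalCore).map H.subtype
  have hNL : N ≤ L := by
    rintro _ ⟨n, hn, rfl⟩
    exact Subgroup.mem_subgroupOf.1 ((L.subgroupOf H).normalCore_le hn)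
  have hNinv : ∀ g ∈ H, ∀ n ∈ N, g⁻¹ * n * g ∈ N := by
    rintro g hg _ ⟨n, hn, rfl⟩
    refine ⟨(⟨g, hg⟩ : H)⁻¹ * n * ⟨g, hg⟩, ?_, rfl⟩
    have := (L.subgroupOf H).normalCore_normal.conj_mem n hn (⟨g, hg⟩ : H)⁻¹
    rwa [inv_inv] at this
  have hNH : N.relIndex H ≠ 0 := by
    have h1 : N.subgroupOf H = (L.subgroupOf H).normalCore := by
      ext y
      rw [Subgroup.mem_subgroupOf]
      constructor
      · rintro ⟨n, hn, hny⟩
        have : n = y := Subtype.ext hny
        rwa [← this]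
      · intro hy
        exact ⟨y, hy, rfl⟩
    show (N.subgroupOf H).index ≠ 0
    rw [h1]
    exact Subgroup.FiniteIndex.index_ne_zero
  have hNK : N.relIndex K ≠ 0 := by
    intro h0
    exact hNH (Subgroup.relIndex_eq_zero_of_le_right h.le h0)
  -- the centralizer
  let C : Subgroup G := K ⊓ Subgroup.centralizer (N : Set G)
  have hCinv : ∀ g ∈ H, ∀ m ∈ C, g⁻¹ * m * g ∈ C := by
    intro g hg m hm
    obtain ⟨hm1, hm2⟩ := Subgroup.mem_inf.1 hm
    refine Subgroup.mem_inf.2 ⟨h.nor g hg m hm1, ?_⟩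
    rw [Subgroup.mem_centralizer_iff] at hm2 ⊢
    intro n hn
    have h1 := hm2 (g * n * g⁻¹) (by
      have := hNinv g⁻¹ (H.inv_mem hg) n hn
      rwa [inv_inv] at this)
    calc n * (g⁻¹ * m * g) = g⁻¹ * (g * n * g⁻¹ * m) * g := by group
      _ = g⁻¹ * (m * (g * n * g⁻¹)) * g := by rw [h1]
      _ = g⁻¹ * m * g * n := by group
  have hCx : x ∈ C := by
    refine Subgroup.mem_inf.2 ⟨hx, ?_⟩
    rw [Subgroup.mem_centralizer_iff]
    intro n hn
    exact (hxL n (hNL hn)).symm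
  have hCK : C.relIndex K ≠ 0 := by
    refine hJ.ji C inf_le_left hCinv ?_
    intro h0
    rw [h0] at hCx
    exact hx1 (Subgroup.mem_bot.1 hCx)
  -- the centre of `N`
  have hZ : (C ⊓ N).relIndex K ≠ 0 := Subgroup.relIndex_inf_ne_zero hCK hNK
  let Z : Subgroup K := (C ⊓ N).subgroupOf K
  have hZfi : Z.FiniteIndex := ⟨hZ⟩
  have hfg : Group.FG K := (Group.fg_iff_subgroup_fg K).2 hJ.fg
  have hZfg : Group.FG Z := Subgroup.fg_of_index_ne_zero Z
  have hcomm : ∀ y z : Z, y * z = z * y := by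
    rintro ⟨⟨y, hyK⟩, hy⟩ ⟨⟨z, hzK⟩, hz⟩
    rw [Subgroup.mem_subgroupOf] at hy hz
    have h1 := Subgroup.mem_centralizer_iff.1 hy.1.2 z hz.2
    exact Subtype.ext (Subtype.ext h1.symm)
  let : CommGroup Z := { (inferInstance : Group Z) with mul_comm := hcomm }
  have htor : IsMulTorsion Z := by
    rintro ⟨⟨y, hyK⟩, hy⟩
    obtain ⟨n, hn⟩ := h.odd y hyK
    rw [isOfFinOrder_iff_pow_eq_one]
    exact ⟨2 * n + 1, by omega, Subtype.ext (Subtype.ext hn)⟩
  have hfin : Finite Z := CommGroup.finite_of_fg_isMulTorsion Z htor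
  have hcard : Nat.card K ≠ 0 := by
    rw [← Subgroup.card_mul_index Z]
    exact mul_ne_zero Nat.card_pos.ne' hZ
  have hK : Finite K := Nat.finite_of_card_ne_zero hcard
  exact hJ.inf.not_finite hK

end Pool.Agent.FourGp.H59
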