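import Pool.Agent.Lib.MP_fb3619_al.Iface
import Mathlib.Algebra.QuadraticAlgebra.Defs
import Mathlib.RingTheory.IntegralClosure.IsIntegral.Basic

/-!
# ROTI: entries of rotations of finite order are integral up to a factor 2
-/

universe u

namespace Pool.Agent.FourGp.H59

open Matrix

/-- `R[i]`. -/
abbrev Gi (R : Type u) [CommRing R] : Type u := QuadraticAlgebra R (-1) 0

variable {R : Type u} [CommRing R]

theorem rotA_mul (z w : Gi R) :
    rotA (z * w).re (z * w).im = rotA z.re z.im * rotA w.re w.im := by
  ext i j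
  fin_cases i <;> fin_cases j <;>
    simp [rotA, Matrix.mul_apply, Fin.sum_univ_three, QuadraticAlgebra.re_mul,
      QuadraticAlgebra.im_mul] <;> ring

theorem rotB_mul (z w : Gi R) :
    rotB (z * w).re (z * w).im = rotB z.re z.im * rotB w.re w.im := by
  ext i j
  fin_cases i <;> fin_cases j <;>
    simp [rotB, Matrix.mul_apply, Fin.sum_univ_three, QuadraticAlgebra.re_mul,
      QuadraticAlgebra.im_mul] <;> ring

theorem rotC_mul (z w : Gi R) :
    rotC (z * w).re (z * w).im = rotC z.re z.im * rotC w.re w.im := by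
  ext i j
  fin_cases i <;> fin_cases j <;>
    simp [rotC, Matrix.mul_apply, Fin.sum_univ_three, QuadraticAlgebra.re_mul,
      QuadraticAlgebra.im_mul] <;> ring

theorem pow_of_mul {f : R → R → Matrix (Fin 3) (Fin 3) R} (h1 : f 1 0 = 1)
    (hm : ∀ z w : Gi R, f (z * w).re (z * w).im = f z.re z.im * f w.re w.im) (z : Gi R) (n : ℕ) :
    f (z ^ n).re (z ^ n).im = f z.re z.im ^ n := by
  induction n with
  | zero =>
    rw [pow_zero, pow_zero]
    exact h1
  | succ n ih => rw [pow_succ, pow_succ, hm, ih]

theorem rotA_one : rotA (1 : R) 0 = 1 := by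
  ext i j
  fin_cases i <;> fin_cases j <;> simp [rotA]

theorem rotB_one : rotB (1 : R) 0 = 1 := by
  ext i j
  fin_cases i <;> fin_cases j <;> simp [rotB]

theorem rotC_one : rotC (1 : R) 0 = 1 := by
  ext i j
  fin_cases i <;> fin_cases j <;> simp [rotC]

theorem integral_of_pow {z : Gi R} {n : ℕ} (hn : 0 < n) (hz : z ^ n = 1)
    (h : z.re * z.re + z.im * z.im = 1) :
    IsIntegral ℤ (2 * z.re) ∧ IsIntegral ℤ (2 * z.im) := by
  set z' : Gi R := ⟨z.re, -z.im⟩ with hz'
  set i : Gi R := ⟨0, 1⟩ with hi
  have hzz : z * z' = 1 := by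
    ext
    · simp [QuadraticAlgebra.re_mul, hz', QuadraticAlgebra.re_one]
      linear_combination h
    · simp [QuadraticAlgebra.im_mul, hz', QuadraticAlgebra.im_one]
      ring
  have hii : i * i = -1 := by
    ext
    · simp [QuadraticAlgebra.re_mul, hi, QuadraticAlgebra.re_one]
    · simp [QuadraticAlgebra.im_mul, hi, QuadraticAlgebra.im_one]
  have hz'n : z' ^ n = 1 := by
    calc z' ^ n = z' ^ n * z ^ n := by rw [hz, mul_one]
      _ = (z * z') ^ n := by rw [← mul_pow, mul_comm]
      _ = 1 := by rw [hzz, one_pow]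
  have i1 : IsIntegral ℤ z := IsIntegral.of_pow hn (by rw [hz]; exact isIntegral_one)
  have i2 : IsIntegral ℤ z' := IsIntegral.of_pow hn (by rw [hz'n]; exact isIntegral_one)
  have i3 : IsIntegral ℤ i := by
    refine IsIntegral.of_pow (n := 2) (by norm_num) ?_
    rw [pow_two, hii]
    exact isIntegral_one.neg
  have e1 : algebraMap R (Gi R) (2 * z.re) = z + z' := by
    ext
    · simp [hz', QuadraticAlgebra.algebraMap_eq]
      ring
    · simp [hz', QuadraticAlgebra.algebraMap_eq]
  have e2 : algebraMap R (Gi R) (2 * z.im) = -i * (z - z') := by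
    ext
    · simp [hz', hi, QuadraticAlgebra.algebraMap_eq, QuadraticAlgebra.re_mul]
      ring
    · simp [hz', hi, QuadraticAlgebra.algebraMap_eq, QuadraticAlgebra.im_mul]
  have hinj : Function.Injective (algebraMap R (Gi R)) := QuadraticAlgebra.algebraMap_injective
  constructor
  · rw [← isIntegral_algebraMap_iff hinj, e1]
    exact i1.add i2
  · rw [← isIntegral_algebraMap_iff hinj, e2]
    exact i3.neg.mul (i1.sub i2)

theorem roti : RotiS.{u} := by
  intro R _ C S n hCS hn h
  have key : ∀ z : Gi R, z.re = C → z.im = S → z ^ n = 1 →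
      IsIntegral ℤ (2 * C) ∧ IsIntegral ℤ (2 * S) := by
    intro z h1 h2 h3
    have := integral_of_pow hn h3 (by rw [h1, h2]; exact hCS)
    rwa [h1, h2] at this
  refine key ⟨C, S⟩ rfl rfl ?_
  set z : Gi R := ⟨C, S⟩ with hz
  rcases h with h | h | h
  · have e : rotA (z ^ n).re (z ^ n).im = 1 := by rw [pow_of_mul rotA_one rotA_mul]; exact h
    ext
    · have := congrFun (congrFun e 1) 1
      simpa [rotA, QuadraticAlgebra.re_one] using this
    · have := congrFun (congrFun e 1) 2
      simpa [rotA, QuadraticAlgebra.im_one] using this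
  · have e : rotB (z ^ n).re (z ^ n).im = 1 := by rw [pow_of_mul rotB_one rotB_mul]; exact h
    ext
    · have := congrFun (congrFun e 0) 0
      simpa [rotB, QuadraticAlgebra.re_one] using this
    · have := congrFun (congrFun e 2) 0
      simpa [rotB, QuadraticAlgebra.im_one] using this
  · have e : rotC (z ^ n).re (z ^ n).im = 1 := by rw [pow_of_mul rotC_one rotC_mul]; exact h
    ext
    · have := congrFun (congrFun e 0) 0
      simpa [rotC, QuadraticAlgebra.re_one] using this
    · have := congrFun (congrFun e 0) 1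
      simpa [rotC, QuadraticAlgebra.im_one] using this

end Pool.Agent.FourGp.H59
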